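import Pool.Agent.Run7.h987.RT.Iface

/-!
# The two marker levels (pieces LEV1 and LEV2 of the embedding over one cube)
-/

set_option autoImplicit false

open MeasureTheory Set SchwartzMap
open scoped FourierTransform SchwartzMap ContDiff Pointwise Topology ENNReal

noncomputable section

namespace Pool.Agent.Run7.h921.RT

open Pool.Agent.Run7.h987.BL Pool.Agent.Run7.h987.RT

universe u

lemma vec_neg' {k : ℕ} (n : Zk k) : (vec (-n) : E k) = - vec n := by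
  ext i
  simp [vec_apply]

lemma exists_s (k : ℕ) {δ : ℝ} (hδ : 0 < δ) : ∃ s : ℝ, 0 < s ∧ s < 1 ∧ 1 - s ^ k < δ := by
  have hk1 : (0 : ℝ) < (k : ℝ) + 1 := by positivity
  set e : ℝ := min (1 / 2) (δ / (2 * ((k : ℝ) + 1))) with he
  have he0 : 0 < e := lt_min (by norm_num) (by positivity)
  have he1 : e ≤ 1 / 2 := min_le_left _ _
  have he2 : e ≤ δ / (2 * ((k : ℝ) + 1)) := min_le_right _ _
  refine ⟨1 - e, by linarith, by linarith, ?_⟩
  have h1 : 1 + (k : ℝ) * (-e) ≤ (1 + (-e)) ^ k := one_add_mul_le_pow (by linarith) k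
  have h2 : (k : ℝ) * e ≤ δ / 2 := by
    calc (k : ℝ) * e ≤ ((k : ℝ) + 1) * (δ / (2 * ((k : ℝ) + 1))) := by
          apply mul_le_mul (by linarith) he2 he0.le hk1.le
      _ = δ / 2 := by field_simp
  have h3 : (1 + (-e)) ^ k = (1 - e) ^ k := by ring_nf
  rw [h3] at h1
  linarith

lemma wts_of {k : ℕ} (hWTB : P_WTB) (hWTS : P_WTS) (hWTC : P_WTC.{u})
    {X : Type u} [TopologicalSpace X] [AddAction (Zk k) X] (h : X → ℝ) (N L κ R Λ H θ : ℝ) (Rb : ℕ)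
    (hact : ∀ n : Zk k, Continuous fun x : X => n +ᵥ x) (hh : Continuous h)
    (hN : 0 < N) (hH : 0 ≤ H) (hθ : 0 ≤ θ) (hR : R ≤ 2 * θ)
    (hC : ∀ x : X, Cfg N L fun n : Zk k => h (n +ᵥ x)) (hb1 : L + Λ ≤ Rb)
    (hb2 : 2 * Λ + 2 * θ ≤ Rb) :
    Wts κ R Λ fun (x : X) (n z : Zk k) =>
      wgt (fun j : Zk k => h (j +ᵥ x)) Rb Λ H θ n (κ • vec z) := by
  refine ⟨?_, ?_, ?_, ?_, ?_, ?_⟩
  · intro n z
    exact hWTC k X (fun x n => h (n +ᵥ x)) N L Rb Λ H θ hN hH hC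
      (fun n => hh.comp (hact n)) hb1 n (κ • vec z)
  · intro x n z
    exact (hWTB k _ Rb Λ H θ n _).1.1
  · intro x n z
    exact (hWTB k _ Rb Λ H θ n _).1.2
  · intro x n z hz
    exact ((hWTB k _ Rb Λ H θ n _).2.1 hz).2.1
  · intro x n z n' z' hne h1 h2
    exact hR.trans (hWTS k _ Rb Λ H θ n n' _ _ hθ hb2 hne h1 h2)
  · intro q x n z
    have e : (fun j : Zk k => h (j +ᵥ (q +ᵥ x))) = fun j : Zk k => h ((j + q) +ᵥ x) := by
      funext j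
      rw [add_vadd]
    show wgt (fun j : Zk k => h (j +ᵥ (q +ᵥ x))) Rb Λ H θ n (κ • vec z) = _
    rw [e]
    exact (hWTB k (fun j : Zk k => h (j +ᵥ x)) Rb Λ H θ n (κ • vec z)).2.2.2 q

/-- **LEV1**. -/
theorem t_LEV1 (hMF : P_MARKF.{u}) (hME : P_MARKENC.{u}) (hWTB : P_WTB) (hWTS : P_WTS)
    (hWTC : P_WTC.{u}) (hD1 : P_D1) : P_LEV1.{u} := by
  intro k N1 R δ hk hN1 hδ U hUo hUne X _ _ _ hact hmk
  obtain ⟨s, hs0, hs1, hsδ⟩ := exists_s k hδ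
  set θ : ℝ := max (max (R / 2) ((N1 : ℝ) * k)) 0 with hθ
  have hθ0 : 0 ≤ θ := le_max_right _ _
  have hθ1 : R ≤ 2 * θ := by
    have : R / 2 ≤ θ := (le_max_left _ _).trans (le_max_left _ _)
    linarith
  have hθ2 : (N1 : ℝ) * k ≤ θ := (le_max_right _ _).trans (le_max_left _ _)
  obtain ⟨N0, hN0, hD⟩ := hD1 k N1 θ s δ hk hN1 hθ2 hs0 hs1 hsδ
  obtain ⟨M0, hM0, hE⟩ := hME k hk U hUo hUne
  obtain ⟨N, hNge⟩ := exists_nat_ge (max N0 M0)
  have hNN0 : N0 ≤ (N : ℝ) := (le_max_left _ _).trans hNge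
  have hNM0 : M0 ≤ (N : ℝ) := (le_max_right _ _).trans hNge
  have hNpos : (0 : ℝ) < N := lt_of_lt_of_le hN0 hNN0
  have hNpos' : 0 < N := by exact_mod_cast hNpos
  obtain ⟨L, h, hL, hh, hC⟩ := hMF k X hk hact hmk N hNpos'
  obtain ⟨Q0, hQ⟩ := hD N L hNN0 hL
  obtain ⟨S, F, hSc, hSU, hSig, hF⟩ := hE X N L h hact hNM0 hh hC
  have hN1k : (0 : ℝ) ≤ (N1 : ℝ) * k := by positivity
  obtain ⟨Rb, hRb⟩ := exists_nat_ge (2 * (L + 2 + (N1 : ℝ) * k) + 2 * θ)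
  have hH0 : 0 ≤ s * (L + 2) := by positivity
  refine ⟨S, F, L + 2 + N1 * k, fun x n b =>
    wgt (fun j : Zk k => h (j +ᵥ x)) Rb (L + 2 + N1 * k) (s * (L + 2)) θ n ((N1 : ℝ) • vec b),
    Q0, hSc, hSU, hSig, ?_, ?_, ?_⟩
  · intro x y hxy
    have e : (fun j : Zk k => h (j +ᵥ x)) = fun j : Zk k => h (j +ᵥ y) := by
      funext j
      exact hF x y hxy j
    funext n b
    show wgt (fun j : Zk k => h (j +ᵥ x)) Rb (L + 2 + N1 * k) (s * (L + 2)) θ n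
      ((N1 : ℝ) • vec b) = _
    rw [e]
  · exact wts_of hWTB hWTS hWTC h N L (N1 : ℝ) R (L + 2 + N1 * k) (s * (L + 2)) θ Rb hact hh hNpos
      hH0 hθ0 hθ1 hC (by linarith) hRb
  · intro Q hQ0 x u bad hbad hb
    exact hQ (L + 2) (L + 2 + N1 * k) Rb (fun j : Zk k => h (j +ᵥ x)) (hC x) le_rfl le_rfl hRb Q
      hQ0 u bad hbad hb

/-- **LEV2**. -/
theorem t_LEV2 (hMF : P_MARKF.{u}) (hME : P_MARKENC.{u}) (hWTB : P_WTB) (hWTS : P_WTS)
    (hWTC : P_WTC.{u}) (hCOV : P_COVER) (hCNT : P_CNT2) : P_LEV2.{u} := by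
  intro k κ R Q D hk hκ hκQ U hUo hUne X _ _ _ hact hmk
  set θ : ℝ := max (R / 2) 0 with hθ
  have hθ0 : 0 ≤ θ := le_max_right _ _
  have hθ1 : R ≤ 2 * θ := by
    have : R / 2 ≤ θ := le_max_left _ _
    linarith
  obtain ⟨N0, hN0, hCn⟩ := hCNT k κ θ Q D hk hκ hκQ hθ0
  obtain ⟨M0, hM0, hE⟩ := hME k hk U hUo hUne
  obtain ⟨N, hNge⟩ := exists_nat_ge (max N0 M0)
  have hNN0 : N0 ≤ (N : ℝ) := (le_max_left _ _).trans hNge
  have hNM0 : M0 ≤ (N : ℝ) := (le_max_right _ _).trans hNge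
  have hNpos : (0 : ℝ) < N := lt_of_lt_of_le hN0 hNN0
  have hNpos' : 0 < N := by exact_mod_cast hNpos
  obtain ⟨L, h, hL, hh, hC⟩ := hMF k X hk hact hmk N hNpos'
  obtain ⟨S, F, hSc, hSU, hSig, hF⟩ := hE X N L h hact hNM0 hh hC
  have hQk : (0 : ℝ) ≤ (Q : ℝ) * k := by positivity
  obtain ⟨Rb, hRb⟩ := exists_nat_ge (2 * (L + 2 + (Q : ℝ) * k) + 2 * θ)
  refine ⟨S, F, L + 2 + Q * k,
    fun x m j => wgt (fun i : Zk k => h (i +ᵥ x)) Rb (L + 2) (L + 2) (-1) m (vec j),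
    fun x m z => wgt (fun i : Zk k => h (i +ᵥ x)) Rb (L + 2 + Q * k) (1 / 2 * (L + 2)) θ m
      (κ • vec z), hSc, hSU, hSig, ?_, ?_, ?_, ?_, ?_, ?_, ?_, ?_⟩
  · intro x y hxy
    have e : (fun j : Zk k => h (j +ᵥ x)) = fun j : Zk k => h (j +ᵥ y) := by
      funext j
      exact hF x y hxy j
    constructor
    · funext m j
      show wgt (fun i : Zk k => h (i +ᵥ x)) Rb (L + 2) (L + 2) (-1) m (vec j) = _
      rw [e]
    · funext m z
      show wgt (fun i : Zk k => h (i +ᵥ x)) Rb (L + 2 + Q * k) (1 / 2 * (L + 2)) θ m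
        (κ • vec z) = _
      rw [e]
  · exact wts_of hWTB hWTS hWTC h N L κ R (L + 2 + Q * k) (1 / 2 * (L + 2)) θ Rb hact hh hNpos
      (by positivity) hθ0 hθ1 hC (by linarith) hRb
  · intro m j
    exact hWTC k X (fun x n => h (n +ᵥ x)) N L Rb (L + 2) (L + 2) (-1) hNpos (by positivity) hC
      (fun n => hh.comp (hact n)) (by linarith) m (vec j)
  · intro x m j
    exact (hWTB k _ Rb (L + 2) (L + 2) (-1) m _).1
  · intro x m j hj
    have := ((hWTB k _ Rb (L + 2) (L + 2) (-1) m _).2.1 hj).2.1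
    linarith
  · intro q x m j
    have e : (fun i : Zk k => h (i +ᵥ (q +ᵥ x))) = fun i : Zk k => h ((i + q) +ᵥ x) := by
      funext i
      rw [add_vadd]
    show wgt (fun i : Zk k => h (i +ᵥ (q +ᵥ x))) Rb (L + 2) (L + 2) (-1) m (vec j) = _
    rw [e]
    exact (hWTB k (fun i : Zk k => h (i +ᵥ x)) Rb (L + 2) (L + 2) (-1) m (vec j)).2.2.2 q
  · intro x
    obtain ⟨n, hn0, hn1, hn2⟩ := hCOV k N L (L + 2) (fun i : Zk k => h (i +ᵥ x)) hNpos hL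
      (by positivity) (hC x) 0
    refine ⟨n, ?_⟩
    refine (hWTB k (fun i : Zk k => h (i +ᵥ x)) Rb (L + 2) (L + 2) (-1) n (vec (-n))).2.2.1
      hn0.ne' ?_ ?_
    · rw [vec_neg', norm_neg]
      rw [zero_sub, norm_neg] at hn1
      linarith
    · intro m hm hm0
      have hmn : m ≠ n := (Finset.mem_erase.mp hm).1
      have h0 : 0 < h (m +ᵥ x) := lt_of_le_of_ne ((hC x).nonneg m) (Ne.symm hm0)
      have e : (vec n + vec (-n) : E k) = 0 := by rw [vec_neg']; simp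
      rw [e]
      have := hn2 m hmn h0
      linarith
  · intro x bad hb m
    exact hCn N L (L + 2) (L + 2 + Q * k) Rb (fun i : Zk k => h (i +ᵥ x)) bad hNN0 hL (hC x)
      le_rfl le_rfl (by linarith) hb m

end Pool.Agent.Run7.h921.RT
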